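import Mathlib

/-! Triangular matrices and the product formula. -/

set_option autoImplicit false

namespace Pool.Agent.H496

open Function Matrix

/-- Upper unitriangular matrices. -/
def IsUni {N : ℕ} {R : Type*} [Semiring R] (A : Matrix (Fin N) (Fin N) R) : Prop :=
  (∀ i j, j < i → A i j = 0) ∧ ∀ i, A i i = 1

/-- Bounds `c v` for all places with product `< 1`. -/
def IsSmall {V : Type*} (c : V → ℝ) : Prop := (mulSupport c).Finite ∧ ∏ᶠ v, c v < 1

/-- `k` is a field with a product formula; `L v` are the local fields. -/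
def ProductFormula {k V : Type*} [Field k] {L : V → Type*} [∀ v, NormedField (L v)] (e : ∀ v, k →+* L v) : Prop :=
  ∀ x : k, x ≠ 0 → (mulSupport fun v => ‖e v x‖).Finite ∧ ∏ᶠ v, ‖e v x‖ = 1

section
variable {k V : Type*} [Field k] {L : V → Type*} [∀ v, NormedField (L v)] {e : ∀ v, k →+* L v}

theorem eq_zero_of_small (he : ProductFormula e) {c : V → ℝ} (hc : IsSmall c) {x : k}
    (hx : ∀ v, ‖e v x‖ ≤ c v) : x = 0 := by
  by_contra hne
  obtain ⟨h1, h2⟩ := he x hne
  have h3 : ∏ᶠ v, ‖e v x‖ ≤ ∏ᶠ v, c v :=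
    finprod_le_finprod h1 (fun v => norm_nonneg _) hc.1 hx
  have := hc.2
  linarith

theorem tri_sep (he : ProductFormula e) {N : ℕ} {A : Matrix (Fin N) (Fin N) k}
    {C P Q : ∀ v, Matrix (Fin N) (Fin N) (L v)} (hP : ∀ v, IsUni (P v)) (hQ : ∀ v, IsUni (Q v))
    (hA : ∀ v, A.map (e v) = P v * C v * Q v)
    (hc : ∀ i j, j < i → ∃ c : V → ℝ, IsSmall c ∧ ∀ v, ‖C v i j‖ ≤ c v) :
    (∀ i j, j < i → A i j = 0) ∧ ∀ i v, e v (A i i) = C v i i := by
  have expand : ∀ (v : V) (i j : Fin N), e v (A i j) = ∑ l, ∑ m, P v i m * C v m l * Q v l j := by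
    intro v i j
    have := congrFun (congrFun (hA v) i) j
    rw [Matrix.map_apply, Matrix.mul_apply] at this
    rw [this]
    refine Finset.sum_congr rfl fun l _ => ?_
    rw [Matrix.mul_apply, Finset.sum_mul]
  have red : ∀ (v : V) (i j : Fin N), j ≤ i →
      (∀ m l : Fin N, i ≤ m → l ≤ j → (m ≠ i ∨ l ≠ j) → C v m l = 0) → e v (A i j) = C v i j := by
    intro v i j hij hz
    rw [expand, Finset.sum_eq_single j, Finset.sum_eq_single i]
    · rw [(hP v).2, (hQ v).2, one_mul, mul_one]
    · intro m _ hm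
      by_cases h1 : i ≤ m
      · rw [hz m j h1 le_rfl (Or.inl hm)]; ring
      · rw [(hP v).1 i m (not_le.1 h1)]; ring
    · intro h; exact absurd (Finset.mem_univ _) h
    · intro l _ hl
      refine Finset.sum_eq_zero fun m _ => ?_
      by_cases h2 : l ≤ j
      · by_cases h1 : i ≤ m
        · rw [hz m l h1 h2 (Or.inr hl)]; ring
        · rw [(hP v).1 i m (not_le.1 h1)]; ring
      · rw [(hQ v).1 l j (not_le.1 h2)]; ring
    · intro h; exact absurd (Finset.mem_univ _) h
  have main : ∀ (d : ℕ) (i j : Fin N), j < i → (N - i.1) + j.1 ≤ d → A i j = 0 ∧ ∀ v, C v i j = 0 := by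
    intro d
    induction d with
    | zero =>
      intro i j hij h
      have := i.2
      omega
    | succ d ih =>
      intro i j hij h
      have h1 : ∀ v, e v (A i j) = C v i j := by
        intro v
        refine red v i j hij.le fun m l hm hl hne => ?_
        have hlm : l < m := lt_of_le_of_lt hl (lt_of_lt_of_le hij hm)
        refine (ih m l hlm ?_).2 v
        have := m.2
        have hm' : i.1 ≤ m.1 := hm
        have hl' : l.1 ≤ j.1 := hl
        rcases hne with h' | h'
        · have : m.1 ≠ i.1 := fun h => h' (Fin.ext h)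
          omega
        · have : l.1 ≠ j.1 := fun h => h' (Fin.ext h)
          omega
      obtain ⟨c, hc1, hc2⟩ := hc i j hij
      have h2 : A i j = 0 := eq_zero_of_small he hc1 fun v => by rw [h1]; exact hc2 v
      exact ⟨h2, fun v => by rw [← h1, h2, map_zero]⟩
  have main' : ∀ i j : Fin N, j < i → A i j = 0 ∧ ∀ v, C v i j = 0 := fun i j hij => main _ i j hij le_rfl
  refine ⟨fun i j hij => (main' i j hij).1, fun i v => ?_⟩
  refine red v i i le_rfl fun m l hm hl hne => ?_
  refine (main' m l ?_).2 v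
  rcases hne with h' | h'
  · exact lt_of_le_of_lt hl (lt_of_le_of_ne hm (Ne.symm h'))
  · exact lt_of_lt_of_le (lt_of_le_of_ne hl h') hm

theorem diag_mul {N : ℕ} {X Y : Matrix (Fin N) (Fin N) k} (hX : ∀ i j, j < i → X i j = 0)
    (hY : ∀ i j, j < i → Y i j = 0) (i : Fin N) : (X * Y) i i = X i i * Y i i := by
  rw [Matrix.mul_apply, Finset.sum_eq_single i]
  · intro j _ hj
    rcases lt_or_gt_of_ne hj with h | h
    · rw [hX i j h, zero_mul]
    · rw [hY j i h, mul_zero]
  · intro h; exact absurd (Finset.mem_univ _) h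

end

end Pool.Agent.H496
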