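import Mathlib
import Pool.Agent.H496.R2.Bessel
import Pool.Agent.H496.B3.Tri

/-! Whittaker coefficients. -/

set_option autoImplicit false
set_option linter.unusedSectionVars false

namespace Pool.Agent.H496

open MeasureTheory Set Function Module
open scoped ENNReal NNReal ComplexConjugate

theorem bessel' {X S J : Type*} [MeasurableSpace X] [MeasurableSpace S] [Fintype J] [DecidableEq J] (μ : Measure X)
    (f : J → X → ℂ) (hm : ∀ j, Measurable (f j))
    (ho : ∀ i j, ∫ x, f i x * conj (f j x) ∂μ = if i = j then 1 else 0)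
    (ν : Measure S) (φ : S → X) (hφ : Measurable φ) {C : ℝ} (hC : 0 ≤ C)
    (hle : ∀ a : J → ℂ, ∫⁻ s, ENNReal.ofReal (‖∑ j, a j * f j (φ s)‖ ^ 2) ∂ν ≤
      ENNReal.ofReal C * ∫⁻ x, ENNReal.ofReal (‖∑ j, a j * f j x‖ ^ 2) ∂μ)
    (K : S → ℂ) (hKm : Measurable K) (hK : Integrable (fun s => ‖K s‖ ^ 2) ν) :
    (∀ j, Integrable (fun s => f j (φ s) * K s) ν) ∧
    ∑ j, ‖∫ s, f j (φ s) * K s ∂ν‖ ^ 2 ≤ C * ∫ s, ‖K s‖ ^ 2 ∂ν := by
  have hK2 : MemLp K 2 ν := (memLp_two_iff_integrable_sq_norm hKm.aestronglyMeasurable).2 hK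
  have hint : ∀ j, Integrable (fun s => f j (φ s) * K s) ν := by
    intro j
    have h1 := hle (Pi.single j 1)
    rw [orth_sum μ f (fun j => (hm j).aestronglyMeasurable) ho] at h1
    have e1 : ∀ x, ∑ i, (Pi.single j (1 : ℂ) : J → ℂ) i * f i x = f j x := by
      intro x
      rw [Finset.sum_eq_single j]
      · simp
      · intro b _ hb
        simp [hb]
      · simp
    simp_rw [e1] at h1
    have hfm : Measurable fun s => f j (φ s) := (hm j).comp hφ
    have h2 : Integrable (fun s => ‖f j (φ s)‖ ^ 2) ν := by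
      refine ⟨((hfm.norm).pow_const 2).aestronglyMeasurable, ?_⟩
      rw [hasFiniteIntegral_iff_ofReal (Filter.Eventually.of_forall fun s => sq_nonneg _)]
      exact lt_of_le_of_lt h1 (ENNReal.mul_lt_top ENNReal.ofReal_lt_top ENNReal.ofReal_lt_top)
    have h3 : MemLp (fun s => f j (φ s)) 2 ν := (memLp_two_iff_integrable_sq_norm hfm.aestronglyMeasurable).2 h2
    exact h3.integrable_mul hK2
  exact ⟨hint, bessel μ f hm ho ν φ hφ hC hle K hKm hK hint⟩

theorem tsum_le_card {X G R : Type*} {B : Set X} (T : G → X → X) (x : X) (𝒟 : Finset R) (d : G → R)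
    (h1 : ∀ g, T g x ∈ B → d g ∈ 𝒟) (h2 : ∀ g g', T g x ∈ B → T g' x ∈ B → d g = d g' → g = g') :
    ∑' g, B.indicator (fun _ => (1 : ℝ≥0∞)) (T g x) ≤ 𝒟.card := by
  classical
  rw [ENNReal.tsum_eq_iSup_sum]
  refine iSup_le fun s => ?_
  have : ∑ g ∈ s, B.indicator (fun _ => (1 : ℝ≥0∞)) (T g x) = ((s.filter fun g => T g x ∈ B).card : ℝ≥0∞) := by
    rw [Finset.card_filter, Nat.cast_sum]
    refine Finset.sum_congr rfl fun g _ => ?_
    by_cases h : T g x ∈ B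
    · rw [indicator_of_mem h, if_pos h, Nat.cast_one]
    · rw [indicator_of_notMem h, if_neg h, Nat.cast_zero]
  rw [this]
  have h3 : (s.filter fun g => T g x ∈ B).card ≤ 𝒟.card :=
    Finset.card_le_card_of_injOn d (fun g hg => h1 g (Finset.mem_filter.1 (Finset.mem_coe.1 hg)).2)
      (fun g hg g' hg' h => h2 g g' (Finset.mem_filter.1 (Finset.mem_coe.1 hg)).2
        (Finset.mem_filter.1 (Finset.mem_coe.1 hg')).2 h)
  exact_mod_cast h3

section whittaker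

variable {G UA S H : Type*} [Group G] [Group UA] [MeasurableSpace UA] [MeasurableSpace S] [Group H]
  [MeasurableSpace H]

/-- The Whittaker coefficient of `f` at `h`. -/
noncomputable def Wh (ω : Measure UA) (Ω : Set UA) (ι : UA →* H) (ψ : UA → ℂ) (f : H → ℂ) (h : H) : ℂ :=
  ∫ u in Ω, f (ι u * h) * conj (ψ u) ∂ω

/-- The rational points of the unipotent group. -/
def rat (ρ : G →* H) (ι : UA →* H) : Subgroup UA := ρ.range.comap ι

/-- The transform of the kernel. -/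
noncomputable def Kpsi (ω : Measure UA) (ι : UA →* H) (ψ : UA → ℂ) (σ : S → H) (k : H → ℂ) (g : H) (s : S) : ℂ :=
  ∫ u, ψ u * k (g⁻¹ * (ι u * σ s)) ∂ω

theorem Wh_equiv [MeasurableMul UA] (ω : Measure UA) [ω.IsMulLeftInvariant] [ω.IsMulRightInvariant]
    {Ω : Set UA} (hΩ : MeasurableSet Ω) (ρ : G →* H) (ι : UA →* H) [Countable (rat ρ ι)]
    (hfd : ∀ u : UA, ∃! ν : rat ρ ι, (ν : UA) * u ∈ Ω) (ψ : UA → ℂ) (hψm : ∀ u v, ψ (u * v) = ψ u * ψ v)
    (hψ1 : ∀ u, ‖ψ u‖ = 1) (hψr : ∀ ν ∈ rat ρ ι, ψ ν = 1) (f : H → ℂ) (hf : ∀ γ h, f (ρ γ * h) = f h)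
    (u' : UA) (h : H) : Wh ω Ω ι ψ f (ι u' * h) = ψ u' * Wh ω Ω ι ψ f h := by
  have hconj : ∀ u, conj (ψ u) = ψ u' * conj (ψ (u * u')) := by
    intro u
    rw [hψm, map_mul]
    have : ψ u' * conj (ψ u') = 1 := by
      rw [Complex.mul_conj, Complex.normSq_eq_norm_sq, hψ1]
      norm_num
    calc conj (ψ u) = conj (ψ u) * (ψ u' * conj (ψ u')) := by rw [this, mul_one]
      _ = _ := by ring
  set φ : UA → ℂ := fun u => f (ι u * h) * conj (ψ u) with hφ
  have hinv : ∀ (ν : rat ρ ι) (u : UA), φ (ν • u) = φ u := by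
    intro ν u
    have h1 : ν • u = (ν : UA) * u := rfl
    obtain ⟨γ, hγ⟩ := ν.2
    rw [h1, hφ]
    simp only [map_mul, hψm, hψr ν ν.2]
    rw [← hγ, mul_assoc, hf, map_one, one_mul]
  have e1 : Wh ω Ω ι ψ f (ι u' * h) = ψ u' * ∫ u in Ω, φ (u * u') ∂ω := by
    rw [Wh, ← integral_const_mul]
    refine setIntegral_congr_fun hΩ fun u _ => ?_
    show f (ι u * (ι u' * h)) * conj (ψ u) = ψ u' * (f (ι (u * u') * h) * conj (ψ (u * u')))
    rw [hconj u, map_mul, mul_assoc (ι u)]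
    ring
  rw [e1]
  congr 1
  have hF1 : IsFundamentalDomain (rat ρ ι) Ω ω := IsFundamentalDomain.mk' hΩ.nullMeasurableSet hfd
  set Ω' : Set UA := {x | x * u'⁻¹ ∈ Ω} with hΩ'
  have hΩ'm : MeasurableSet Ω' := (measurable_mul_const u'⁻¹) hΩ
  have hF2 : IsFundamentalDomain (rat ρ ι) Ω' ω := by
    refine IsFundamentalDomain.mk' hΩ'm.nullMeasurableSet fun u => ?_
    obtain ⟨ν, hν, huniq⟩ := hfd (u * u'⁻¹)
    refine ⟨ν, ?_, fun ν' hν' => huniq ν' ?_⟩
    · show (ν : UA) * u * u'⁻¹ ∈ Ω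
      rw [mul_assoc]
      exact hν
    · have : (ν' : UA) * u * u'⁻¹ ∈ Ω := hν'
      show (ν' : UA) * (u * u'⁻¹) ∈ Ω
      rwa [← mul_assoc]
  have e2 : ∫ u in Ω, φ (u * u') ∂ω = ∫ x in Ω', φ x ∂ω := by
    rw [← integral_indicator hΩ, ← integral_indicator hΩ'm,
      ← integral_mul_right_eq_self (Ω'.indicator φ) u']
    refine integral_congr_ae (Filter.Eventually.of_forall fun u => ?_)
    show Ω.indicator (fun u => φ (u * u')) u = Ω'.indicator φ (u * u')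
    by_cases hu : u ∈ Ω
    · rw [indicator_of_mem hu, indicator_of_mem]
      show u * u' * u'⁻¹ ∈ Ω
      rwa [mul_inv_cancel_right]
    · rw [indicator_of_notMem hu, indicator_of_notMem]
      intro h'
      have h'' : u * u' * u'⁻¹ ∈ Ω := h'
      rw [mul_inv_cancel_right] at h''
      exact hu h''
  rw [e2]
  exact (hF1.setIntegral_eq hF2 hinv).symm

theorem Wh_eigen [MeasurableMul H] (ω : Measure UA) [SFinite ω] {Ω : Set UA} (μ : Measure H) [SFinite μ]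
    [μ.IsMulLeftInvariant] (ds : Measure S) [SFinite ds] (ι : UA →* H) (ψ : UA → ℂ) (hψmeas : Measurable ψ)
    (hψ1 : ∀ u, ‖ψ u‖ = 1)
    (σ : S → H) (Φ : UA × S ≃ᵐ H) (hΦ : ∀ u s, Φ (u, s) = ι u * σ s) (hΦm : MeasurePreserving Φ (ω.prod ds) μ)
    (f : H → ℂ) (k : H → ℂ) {Λ : ℂ} (g : H)
    (heq : ∀ u s, Wh ω Ω ι ψ f (ι u * σ s) = ψ u * Wh ω Ω ι ψ f (σ s))
    (hΛ : ∀ h, ∫ y, f (h * y) * k y ∂μ = Λ * f h)
    (hint : Integrable (fun p : UA × H => f (ι p.1 * p.2) * k (g⁻¹ * p.2)) ((ω.restrict Ω).prod μ)) :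
    Λ * Wh ω Ω ι ψ f g = ∫ s, Wh ω Ω ι ψ f (σ s) * Kpsi ω ι ψ σ k g s ∂ds := by
  have hint2 : Integrable (fun p : UA × H => f (ι p.1 * p.2) * k (g⁻¹ * p.2) * conj (ψ p.1))
      ((ω.restrict Ω).prod μ) := by
    refine hint.mul_bdd (c := 1) ?_ ?_
    · exact ((Complex.continuous_conj.measurable.comp hψmeas).comp measurable_fst).aestronglyMeasurable
    · refine Filter.Eventually.of_forall fun p => ?_
      rw [RCLike.norm_conj, hψ1]
  have e1 : Λ * Wh ω Ω ι ψ f g = ∫ u in Ω, ∫ y, f (ι u * y) * k (g⁻¹ * y) * conj (ψ u) ∂μ ∂ω := by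
    rw [Wh, ← integral_const_mul]
    refine integral_congr_ae (Filter.Eventually.of_forall fun u => ?_)
    show Λ * (f (ι u * g) * conj (ψ u)) = ∫ y, f (ι u * y) * k (g⁻¹ * y) * conj (ψ u) ∂μ
    rw [integral_mul_const, ← mul_assoc, ← hΛ,
      ← integral_mul_left_eq_self (fun y => f (ι u * y) * k (g⁻¹ * y)) g]
    congr 1
    refine integral_congr_ae (Filter.Eventually.of_forall fun y => ?_)
    show f (ι u * g * y) * k y = f (ι u * (g * y)) * k (g⁻¹ * (g * y))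
    rw [mul_assoc, inv_mul_cancel_left]
  have e2 : Λ * Wh ω Ω ι ψ f g = ∫ y, k (g⁻¹ * y) * Wh ω Ω ι ψ f y ∂μ := by
    rw [e1, integral_integral_swap hint2]
    refine integral_congr_ae (Filter.Eventually.of_forall fun y => ?_)
    show ∫ u in Ω, f (ι u * y) * k (g⁻¹ * y) * conj (ψ u) ∂ω = k (g⁻¹ * y) * Wh ω Ω ι ψ f y
    rw [Wh, ← integral_const_mul]
    refine integral_congr_ae (Filter.Eventually.of_forall fun u => ?_)
    show f (ι u * y) * k (g⁻¹ * y) * conj (ψ u) = k (g⁻¹ * y) * (f (ι u * y) * conj (ψ u))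
    ring
  have hint3 : Integrable (fun y => k (g⁻¹ * y) * Wh ω Ω ι ψ f y) μ := by
    refine hint2.integral_prod_right.congr (Filter.Eventually.of_forall fun y => ?_)
    show ∫ u in Ω, f (ι u * y) * k (g⁻¹ * y) * conj (ψ u) ∂ω = k (g⁻¹ * y) * Wh ω Ω ι ψ f y
    rw [Wh, ← integral_const_mul]
    refine integral_congr_ae (Filter.Eventually.of_forall fun u => ?_)
    show f (ι u * y) * k (g⁻¹ * y) * conj (ψ u) = k (g⁻¹ * y) * (f (ι u * y) * conj (ψ u))
    ring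
  rw [e2, ← hΦm.integral_comp Φ.measurableEmbedding]
  have hint4 : Integrable (fun p : UA × S => k (g⁻¹ * Φ p) * Wh ω Ω ι ψ f (Φ p)) (ω.prod ds) :=
    hΦm.integrable_comp_of_integrable hint3
  rw [integral_prod_symm _ hint4]
  refine integral_congr_ae (Filter.Eventually.of_forall fun s => ?_)
  show ∫ u, k (g⁻¹ * Φ (u, s)) * Wh ω Ω ι ψ f (Φ (u, s)) ∂ω = Wh ω Ω ι ψ f (σ s) * Kpsi ω ι ψ σ k g s
  rw [Kpsi, ← integral_const_mul]
  refine integral_congr_ae (Filter.Eventually.of_forall fun u => ?_)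
  show k (g⁻¹ * Φ (u, s)) * Wh ω Ω ι ψ f (Φ (u, s)) = Wh ω Ω ι ψ f (σ s) * (ψ u * k (g⁻¹ * (ι u * σ s)))
  rw [hΦ, heq]
  ring

end whittaker

end Pool.Agent.H496
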